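import Mathlib

set_option autoImplicit false
open MeasureTheory Metric Filter Topology Set Measure

namespace Pool.Agent.Lib.MP_3f0dd2_gt

/-- `x ↦ x / |x|` is `2`-Lipschitz outside of the unit ball -/
theorem normalize_lip {E : Type*} [NormedAddCommGroup E] [NormedSpace ℝ E] (x y : E) (hx : 1 ≤ ‖x‖) (hy : 1 ≤ ‖y‖) :
    ‖‖x‖⁻¹ • x - ‖y‖⁻¹ • y‖ ≤ 2 * ‖x - y‖ := by
  have hx0 : 0 < ‖x‖ := by linarith
  have hy0 : 0 < ‖y‖ := by linarith
  have e : ‖x‖⁻¹ • x - ‖y‖⁻¹ • y = ‖x‖⁻¹ • (x - y) + (‖x‖⁻¹ - ‖y‖⁻¹) • y := by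
    rw [smul_sub, sub_smul]
    abel
  rw [e]
  have h1 : ‖‖x‖⁻¹ • (x - y)‖ ≤ ‖x - y‖ := by
    rw [norm_smul, norm_inv, norm_norm]
    have : ‖x‖⁻¹ ≤ 1 := inv_le_one_of_one_le₀ hx
    nlinarith [norm_nonneg (x - y)]
  have h2 : ‖(‖x‖⁻¹ - ‖y‖⁻¹) • y‖ ≤ ‖x - y‖ := by
    rw [norm_smul, Real.norm_eq_abs]
    have e2 : (‖x‖⁻¹ - ‖y‖⁻¹) = (‖y‖ - ‖x‖) * (‖x‖⁻¹ * ‖y‖⁻¹) := by
      field_simp
    rw [e2, abs_mul, abs_of_pos (by positivity : 0 < ‖x‖⁻¹ * ‖y‖⁻¹)]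
    have h3 : |‖y‖ - ‖x‖| ≤ ‖x - y‖ := by
      rw [norm_sub_rev x y]
      exact abs_norm_sub_norm_le y x
    have h4 : |‖y‖ - ‖x‖| * (‖x‖⁻¹ * ‖y‖⁻¹) * ‖y‖ = |‖y‖ - ‖x‖| * ‖x‖⁻¹ := by
      field_simp
    rw [h4]
    have : ‖x‖⁻¹ ≤ 1 := inv_le_one_of_one_le₀ hx
    nlinarith [abs_nonneg (‖y‖ - ‖x‖)]
  calc _ ≤ ‖‖x‖⁻¹ • (x - y)‖ + ‖(‖x‖⁻¹ - ‖y‖⁻¹) • y‖ := norm_add_le _ _
    _ ≤ _ := by linarith

/-- `t ↦ (t, s at position i)` -/
noncomputable def ins (k : ℕ) (i : Fin (k + 1)) (s : ℝ) (t : EuclideanSpace ℝ (Fin k)) : EuclideanSpace ℝ (Fin (k + 1)) :=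
  WithLp.toLp 2 (i.insertNth s t.ofLp)

theorem ins_norm_sq (k : ℕ) (i : Fin (k + 1)) (s : ℝ) (t : EuclideanSpace ℝ (Fin k)) :
    ‖ins k i s t‖ ^ 2 = s ^ 2 + ‖t‖ ^ 2 := by
  rw [EuclideanSpace.norm_sq_eq, EuclideanSpace.norm_sq_eq, Fin.sum_univ_succAbove _ i]
  simp [ins]

theorem ins_sub (k : ℕ) (i : Fin (k + 1)) (s : ℝ) (t t' : EuclideanSpace ℝ (Fin k)) :
    ‖ins k i s t - ins k i s t'‖ = ‖t - t'‖ := by
  have h : ins k i s t - ins k i s t' = ins k i 0 (t - t') := by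
    ext j
    rcases Fin.eq_self_or_eq_succAbove i j with rfl | ⟨j', rfl⟩
    · simp [ins]
    · simp [ins]
  rw [h]
  have h1 := ins_norm_sq k i 0 (t - t')
  have h2 : ‖ins k i 0 (t - t')‖ ^ 2 = ‖t - t'‖ ^ 2 := by rw [h1]; ring
  exact (sq_eq_sq₀ (norm_nonneg _) (norm_nonneg _)).1 h2

theorem haus_sphere_lt_top (k : ℕ) : μH[(k : ℝ)] (sphere (0 : EuclideanSpace ℝ (Fin (k + 1))) 1) < ⊤ := by
  set G : Fin (k + 1) × Bool → EuclideanSpace ℝ (Fin k) → EuclideanSpace ℝ (Fin (k + 1)) := fun i t =>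
    ‖ins k i.1 (if i.2 then 1 else -1) t‖⁻¹ • ins k i.1 (if i.2 then 1 else -1) t with hG
  have hone : ∀ (i : Fin (k + 1) × Bool) (t : EuclideanSpace ℝ (Fin k)), 1 ≤ ‖ins k i.1 (if i.2 then 1 else -1) t‖ := by
    intro i t
    have h := ins_norm_sq k i.1 (if i.2 then 1 else -1) t
    have h2 : (1 : ℝ) ≤ ‖ins k i.1 (if i.2 then 1 else -1) t‖ ^ 2 := by
      rw [h]
      split_ifs <;> nlinarith [sq_nonneg ‖t‖]
    nlinarith [norm_nonneg (ins k i.1 (if i.2 then 1 else -1) t)]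
  have hlip : ∀ i, LipschitzWith 2 (G i) := by
    intro i
    apply LipschitzWith.of_dist_le_mul
    intro t t'
    rw [dist_eq_norm, dist_eq_norm]
    have := normalize_lip _ _ (hone i t) (hone i t')
    rw [ins_sub] at this
    exact this
  have hcov : sphere (0 : EuclideanSpace ℝ (Fin (k + 1))) 1 ⊆ ⋃ i : Fin (k + 1) × Bool, G i '' closedBall 0 (k + 1) := by
    intro x hx
    have hx1 : ‖x‖ = 1 := by simpa using hx
    have hsum : ∑ i, (x i) ^ 2 = 1 := by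
      have := EuclideanSpace.norm_sq_eq x
      rw [hx1] at this
      simpa using this.symm
    obtain ⟨i, hi⟩ : ∃ i, 1 ≤ (k + 1) * (x i) ^ 2 := by
      by_contra hcon
      push Not at hcon
      have h1 : ∑ i : Fin (k + 1), (k + 1 : ℝ) * (x i) ^ 2 < ∑ _i : Fin (k + 1), (1 : ℝ) :=
        Finset.sum_lt_sum_of_nonempty Finset.univ_nonempty (fun i _ => hcon i)
      rw [← Finset.mul_sum, hsum] at h1
      simp at h1
    have hxi : x i ≠ 0 := by
      intro h0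
      rw [h0] at hi
      norm_num at hi
    have habs : 0 < |x i| := abs_pos.2 hxi
    rw [mem_iUnion]
    refine ⟨(i, decide (0 < x i)), WithLp.toLp 2 (fun j => |x i|⁻¹ * x (i.succAbove j)), ?_, ?_⟩
    · rw [mem_closedBall_zero_iff]
      have h1 : ‖(WithLp.toLp 2 (fun j => |x i|⁻¹ * x (i.succAbove j)) : EuclideanSpace ℝ (Fin k))‖ ^ 2 ≤ ((k : ℝ) + 1) ^ 2 := by
        rw [EuclideanSpace.norm_sq_eq]
        simp only [norm_mul, norm_inv, Real.norm_eq_abs, abs_abs, mul_pow, sq_abs, inv_pow]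
        rw [← Finset.mul_sum]
        have h2 : ∑ j, (x (i.succAbove j)) ^ 2 ≤ 1 := by
          rw [← hsum, Fin.sum_univ_succAbove _ i]
          nlinarith [sq_nonneg (x i)]
        have h3 : ((x i) ^ 2)⁻¹ ≤ k + 1 := by
          rw [inv_le_comm₀ (by positivity) (by positivity)]
          rw [inv_le_iff_one_le_mul₀ (by positivity)]
          linarith
        have h4 : 0 ≤ ∑ j, (x (i.succAbove j)) ^ 2 := Finset.sum_nonneg fun _ _ => sq_nonneg _
        have h5 : 0 ≤ ((x i) ^ 2)⁻¹ := by positivity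
        have h6 : (0 : ℝ) ≤ k := Nat.cast_nonneg k
        calc ((x i) ^ 2)⁻¹ * ∑ j, (x (i.succAbove j)) ^ 2 ≤ (k + 1) * 1 := by gcongr
          _ ≤ ((k : ℝ) + 1) ^ 2 := by nlinarith
      have h6 : (0 : ℝ) ≤ k := Nat.cast_nonneg k
      exact (sq_le_sq₀ (norm_nonneg _) (by positivity)).1 h1
    · simp only [hG]
      have hv : ins k i (if decide (0 < x i) = true then 1 else -1) (WithLp.toLp 2 (fun j => |x i|⁻¹ * x (i.succAbove j)))
          = |x i|⁻¹ • x := by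
        ext j
        rcases Fin.eq_self_or_eq_succAbove i j with rfl | ⟨j', rfl⟩
        · simp only [ins, Fin.insertNth_apply_same, decide_eq_true_eq, PiLp.smul_apply, smul_eq_mul]
          split_ifs with h
          · rw [abs_of_pos h, inv_mul_cancel₀ hxi]
          · have h' : x j < 0 := lt_of_le_of_ne (not_lt.1 h) hxi
            rw [abs_of_neg h', inv_neg, neg_mul, inv_mul_cancel₀ hxi]
        · simp [ins]
      rw [hv, norm_smul, hx1]
      simp only [norm_inv, Real.norm_eq_abs, abs_abs, mul_one, inv_inv, smul_smul]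
      rw [mul_inv_cancel₀ habs.ne', one_smul]
  refine (measure_mono hcov).trans_lt ?_
  refine (measure_iUnion_le _).trans_lt ?_
  rw [tsum_fintype]
  refine ENNReal.sum_lt_top.2 fun i _ => ?_
  refine ((hlip i).hausdorffMeasure_image_le (Nat.cast_nonneg k) _).trans_lt ?_
  refine ENNReal.mul_lt_top ?_ ?_
  · exact ENNReal.rpow_lt_top_of_nonneg (Nat.cast_nonneg k) (by simp)
  · exact (isCompact_closedBall (0 : EuclideanSpace ℝ (Fin k)) ((k : ℝ) + 1)).measure_lt_top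

theorem haus_sphere_pos (k : ℕ) : 0 < μH[(k : ℝ)] (sphere (0 : EuclideanSpace ℝ (Fin (k + 1))) 1) := by
  set P : EuclideanSpace ℝ (Fin (k + 1)) → EuclideanSpace ℝ (Fin k) := fun x => WithLp.toLp 2 (fun j => x j.castSucc) with hP
  have hlip : LipschitzWith 1 P := by
    apply LipschitzWith.of_dist_le_mul
    intro x y
    rw [dist_eq_norm, dist_eq_norm, NNReal.coe_one, one_mul]
    refine (sq_le_sq₀ (norm_nonneg _) (norm_nonneg _)).1 ?_
    rw [EuclideanSpace.norm_sq_eq, EuclideanSpace.norm_sq_eq, Fin.sum_univ_castSucc]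
    simp only [hP, PiLp.sub_apply]
    have := sq_nonneg ‖x (Fin.last k) - y (Fin.last k)‖
    linarith
  have hsub : closedBall (0 : EuclideanSpace ℝ (Fin k)) 1 ⊆ P '' sphere (0 : EuclideanSpace ℝ (Fin (k + 1))) 1 := by
    intro t ht
    rw [mem_closedBall_zero_iff] at ht
    have ht2 : ‖t‖ ^ 2 ≤ 1 := by nlinarith [norm_nonneg t]
    refine ⟨WithLp.toLp 2 (Fin.snoc (α := fun _ => ℝ) t.ofLp (Real.sqrt (1 - ‖t‖ ^ 2))), ?_, ?_⟩
    · rw [mem_sphere_zero_iff_norm]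
      have h1 : ‖(WithLp.toLp 2 (Fin.snoc (α := fun _ => ℝ) t.ofLp (Real.sqrt (1 - ‖t‖ ^ 2))) : EuclideanSpace ℝ (Fin (k + 1)))‖ ^ 2 = 1 := by
        rw [EuclideanSpace.norm_sq_eq, Fin.sum_univ_castSucc]
        simp only [Fin.snoc_castSucc, Fin.snoc_last]
        rw [← EuclideanSpace.norm_sq_eq t, Real.norm_eq_abs, sq_abs, Real.sq_sqrt (by linarith)]
        ring
      nlinarith [norm_nonneg (WithLp.toLp 2 (Fin.snoc (α := fun _ => ℝ) t.ofLp (Real.sqrt (1 - ‖t‖ ^ 2))) : EuclideanSpace ℝ (Fin (k + 1)))]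
    · simp only [hP]
      ext j
      simp
  have h1 : 0 < μH[(k : ℝ)] (closedBall (0 : EuclideanSpace ℝ (Fin k)) 1) :=
    measure_closedBall_pos _ _ one_pos
  have h2 := hlip.hausdorffMeasure_image_le (Nat.cast_nonneg k) (sphere (0 : EuclideanSpace ℝ (Fin (k + 1))) 1)
  rw [ENNReal.coe_one, ENNReal.one_rpow, one_mul] at h2
  exact h1.trans_le ((measure_mono hsub).trans h2)

theorem hausE_sphere (n : ℕ) (hn : 1 ≤ n) :
    0 < (μHE[n - 1] : Measure (EuclideanSpace ℝ (Fin n))) (sphere 0 1) ∧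
      (μHE[n - 1] : Measure (EuclideanSpace ℝ (Fin n))) (sphere 0 1) < ⊤ := by
  obtain ⟨k, rfl⟩ : ∃ k, n = k + 1 := ⟨n - 1, by omega⟩
  rw [Nat.add_sub_cancel, euclideanHausdorffMeasure_def]
  have h := addHaarScalarFactor_volume_hausdorffMeasure_ne_zero k
  rw [Measure.smul_apply, ENNReal.smul_def, smul_eq_mul]
  constructor
  · apply ENNReal.mul_pos
    · simpa using h
    · exact (haus_sphere_pos k).ne'
  · exact ENNReal.mul_lt_top ENNReal.coe_lt_top (haus_sphere_lt_top k)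

end Pool.Agent.Lib.MP_3f0dd2_gt
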