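import Mathlib

set_option autoImplicit false
open MeasureTheory Set

namespace Pool.Agent.Lib.MP_3f0dd2_gt

/-- One-dimensional Brunn-Minkowski for compact sets. -/
theorem bm_compact (K L C : Set ℝ) (hK : IsCompact K) (hL : IsCompact L)
    (hKn : K.Nonempty) (hLn : L.Nonempty)
    (h : ∀ a ∈ K, ∀ b ∈ L, a + b ∈ C) : volume K + volume L ≤ volume C := by
  obtain ⟨k, hkK, hk⟩ := hK.exists_isGreatest hKn
  obtain ⟨l, hlL, hl⟩ := hL.exists_isLeast hLn
  have h1 : volume K ≤ volume (C ∩ Iio (k + l)) := by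
    have e1 : volume (C ∩ Iio (k + l)) = volume (C ∩ Iic (k + l)) := by
      apply measure_congr
      exact (ae_eq_refl C).inter Iio_ae_eq_Iic
    rw [e1, ← measure_preimage_add_right volume l (C ∩ Iic (k + l))]
    apply measure_mono
    intro x hx
    refine ⟨h x hx l hlL, ?_⟩
    have := hk hx
    simp only [mem_Iic]
    linarith
  have h2 : volume L ≤ volume (C \ Iio (k + l)) := by
    rw [← measure_preimage_add volume k (C \ Iio (k + l))]
    apply measure_mono
    intro y hy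
    refine ⟨h k hkK y hy, ?_⟩
    have := hl hy
    simp only [mem_Iio, not_lt]
    linarith
  calc volume K + volume L ≤ volume (C ∩ Iio (k + l)) + volume (C \ Iio (k + l)) := add_le_add h1 h2
    _ = volume C := measure_inter_add_sdiff C measurableSet_Iio

/-- One-dimensional Brunn-Minkowski for measurable sets. -/
theorem bm (A B C : Set ℝ) (hA : MeasurableSet A) (hB : MeasurableSet B)
    (hAn : A.Nonempty) (hBn : B.Nonempty)
    (h : ∀ a ∈ A, ∀ b ∈ B, a + b ∈ C) : volume A + volume B ≤ volume C := by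
  obtain ⟨a, ha⟩ := hAn
  obtain ⟨b, hb⟩ := hBn
  have key : ∀ K ⊆ A, IsCompact K → ∀ L ⊆ B, IsCompact L → volume K + volume L ≤ volume C := by
    intro K hKA hK L hLB hL
    have := bm_compact (insert a K) (insert b L) C (hK.insert a) (hL.insert b)
      (insert_nonempty a K) (insert_nonempty b L) (by
        intro x hx y hy
        apply h
        · rcases hx with rfl | hx
          · exact ha
          · exact hKA hx
        · rcases hy with rfl | hy
          · exact hb
          · exact hLB hy)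
    exact (add_le_add (measure_mono (subset_insert a K)) (measure_mono (subset_insert b L))).trans this
  rw [hA.measure_eq_iSup_isCompact, hB.measure_eq_iSup_isCompact]
  apply ENNReal.biSup_add_biSup_le' (p := fun K : Set ℝ => K ⊆ A) (q := fun L : Set ℝ => L ⊆ B)
    ⟨∅, empty_subset _⟩ ⟨∅, empty_subset _⟩
  intro K hKA L hLB
  by_cases hK : IsCompact K
  · by_cases hL : IsCompact L
    · simp only [hK, hL, iSup_pos]
      exact key K hKA hK L hLB hL
    · simp only [hK, hL, iSup_pos, iSup_neg, not_false_eq_true]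
      simpa using key K hKA hK ∅ (empty_subset _) isCompact_empty
  · by_cases hL : IsCompact L
    · simp only [hK, hL, iSup_pos, iSup_neg, not_false_eq_true]
      simpa using key ∅ (empty_subset _) isCompact_empty L hLB hL
    · simp [hK, hL]

theorem vol_layer (y : ENNReal) : ∫⁻ t in Ioi (0:ℝ), {t : ℝ | ENNReal.ofReal t < y}.indicator 1 t = y := by
  have hm : MeasurableSet {t : ℝ | ENNReal.ofReal t < y} :=
    measurableSet_lt ENNReal.measurable_ofReal measurable_const
  rw [lintegral_indicator_one hm, Measure.restrict_apply hm]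
  by_cases hy : y = ⊤
  · subst hy
    have : {t : ℝ | ENNReal.ofReal t < ⊤} ∩ Ioi 0 = Ioi 0 := by
      ext t; simp
    rw [this]; simp
  · have : {t : ℝ | ENNReal.ofReal t < y} ∩ Ioi 0 = Ioo 0 y.toReal := by
      ext t
      simp only [mem_inter_iff, mem_ofPred_eq, mem_Ioi, mem_Ioo]
      constructor
      · rintro ⟨h1, h2⟩
        exact ⟨h2, (ENNReal.ofReal_lt_iff_lt_toReal h2.le hy).1 h1⟩
      · rintro ⟨h1, h2⟩
        exact ⟨(ENNReal.ofReal_lt_iff_lt_toReal h1.le hy).2 h2, h1⟩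
    rw [this, Real.volume_Ioo]
    simp [hy]

/-- Layer cake for extended nonnegative functions. -/
theorem layer {α : Type*} [MeasurableSpace α] (μ : Measure α) [SFinite μ] (F : α → ENNReal)
    (hF : Measurable F) :
    ∫⁻ x, F x ∂μ = ∫⁻ t in Ioi (0:ℝ), μ {x | ENNReal.ofReal t < F x} := by
  have h1 : ∀ t : ℝ, μ {x | ENNReal.ofReal t < F x}
      = ∫⁻ x, {p : α × ℝ | ENNReal.ofReal p.2 < F p.1}.indicator 1 (x, t) ∂μ := by
    intro t
    have hm : MeasurableSet {x | ENNReal.ofReal t < F x} := measurableSet_lt measurable_const hF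
    rw [← lintegral_indicator_one hm]
    rfl
  simp_rw [h1]
  rw [lintegral_lintegral_swap]
  · apply lintegral_congr
    intro x
    exact (vol_layer (F x)).symm
  · apply Measurable.aemeasurable
    apply Measurable.indicator (by fun_prop : Measurable (1 : ℝ × α → ENNReal)) (s := {p : ℝ × α | ENNReal.ofReal p.1 < F p.2})
    exact measurableSet_lt (by fun_prop) (by fun_prop)

theorem amgm (x y : ENNReal) : 4 * (x * y) ≤ (x + y) ^ 2 := by
  by_cases hx : x = ⊤
  · subst hx; simp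
  by_cases hy : y = ⊤
  · subst hy; simp
  lift x to NNReal using hx
  lift y to NNReal using hy
  norm_cast
  have : 4 * ((x:ℝ) * y) ≤ ((x:ℝ) + y) ^ 2 := by nlinarith [sq_nonneg ((x:ℝ) - y)]
  exact_mod_cast this

/-- Normalised additive Prekopa-Leindler in dimension one. -/
theorem pl_norm (F G H : ℝ → ENNReal) (hF : Measurable F) (hG : Measurable G) (hH : Measurable H)
    (hF1 : ⨆ s, F s = 1) (hG1 : ⨆ s, G s = 1)
    (h : ∀ s t, F s * G t ≤ H ((s + t) / 2) ^ 2) :
    (∫⁻ s, F s) + (∫⁻ s, G s) ≤ 2 * ∫⁻ s, H s := by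
  rw [layer volume F hF, layer volume G hG, layer volume H hH]
  rw [← lintegral_const_mul' _ _ (by simp), ← lintegral_add_left']
  swap
  · apply Measurable.aemeasurable
    apply Antitone.measurable
    intro a b hab
    apply measure_mono
    intro x hx
    exact lt_of_le_of_lt (ENNReal.ofReal_le_ofReal hab) hx
  apply setLIntegral_mono' measurableSet_Ioi
  intro t ht
  by_cases ht1 : t < 1
  · have hne : ∀ (Φ : ℝ → ENNReal), ⨆ s, Φ s = 1 → {x | ENNReal.ofReal t < Φ x}.Nonempty := by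
      intro Φ hΦ
      have : ENNReal.ofReal t < ⨆ s, Φ s := by
        rw [hΦ]
        exact ENNReal.ofReal_lt_one.2 ht1
      obtain ⟨s, hs⟩ := lt_iSup_iff.1 this
      exact ⟨s, hs⟩
    have hb := bm {x | ENNReal.ofReal t < F x} {x | ENNReal.ofReal t < G x}
      ((fun x => 2⁻¹ * x) ⁻¹' {x | ENNReal.ofReal t < H x})
      (measurableSet_lt measurable_const hF) (measurableSet_lt measurable_const hG)
      (hne F hF1) (hne G hG1) (by
        intro a ha b hb
        have ht0 : (0:ℝ) < t := ht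
        have h2 := h a b
        have h3 : ENNReal.ofReal t ^ 2 < H ((a + b) / 2) ^ 2 := by
          refine lt_of_lt_of_le ?_ h2
          rw [sq]
          exact ENNReal.mul_lt_mul ha hb
        have h4 : ENNReal.ofReal t < H ((a + b) / 2) := by
          by_contra hcon
          push Not at hcon
          exact absurd h3 (not_lt.2 (pow_le_pow_left' hcon 2))
        have e : (2:ℝ)⁻¹ * (a + b) = (a + b) / 2 := by ring
        simpa [e] using h4)
    rw [Real.volume_preimage_mul_left (by norm_num)] at hb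
    simpa using hb
  · have hzero : ∀ (Φ : ℝ → ENNReal), ⨆ s, Φ s = 1 → {x | ENNReal.ofReal t < Φ x} = ∅ := by
      intro Φ hΦ
      ext x
      simp only [mem_ofPred_eq, mem_empty_iff_false, iff_false, not_lt]
      calc Φ x ≤ ⨆ s, Φ s := le_iSup Φ x
        _ = 1 := hΦ
        _ ≤ ENNReal.ofReal t := by
          rw [← ENNReal.ofReal_one]
          exact ENNReal.ofReal_le_ofReal (not_lt.1 ht1)
    rw [hzero F hF1, hzero G hG1]
    simp

/-- Additive Prekopa-Leindler in dimension one, bounded functions. -/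
theorem pl_bdd (F G H : ℝ → ENNReal) (hF : Measurable F) (hG : Measurable G) (hH : Measurable H)
    (hFb : ⨆ s, F s ≠ ⊤) (hGb : ⨆ s, G s ≠ ⊤)
    (h : ∀ s t, F s * G t ≤ H ((s + t) / 2) ^ 2) :
    (∫⁻ s, F s) * (∫⁻ s, G s) ≤ (∫⁻ s, H s) ^ 2 := by
  by_cases hF0 : ⨆ s, F s = 0
  · have : ∀ s, F s = 0 := fun s => le_antisymm (hF0 ▸ le_iSup F s) bot_le
    simp [this]
  by_cases hG0 : ⨆ s, G s = 0
  · have : ∀ s, G s = 0 := fun s => le_antisymm (hG0 ▸ le_iSup G s) bot_le
    simp [this]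
  obtain ⟨a, ha⟩ : ∃ a : ℝ, 0 < a ∧ ⨆ s, F s = ENNReal.ofReal a ^ 2 := by
    refine ⟨Real.sqrt (⨆ s, F s).toReal, Real.sqrt_pos.2 (ENNReal.toReal_pos hF0 hFb), ?_⟩
    rw [← ENNReal.ofReal_pow (Real.sqrt_nonneg _), Real.sq_sqrt ENNReal.toReal_nonneg,
      ENNReal.ofReal_toReal hFb]
  obtain ⟨b, hb⟩ : ∃ b : ℝ, 0 < b ∧ ⨆ s, G s = ENNReal.ofReal b ^ 2 := by
    refine ⟨Real.sqrt (⨆ s, G s).toReal, Real.sqrt_pos.2 (ENNReal.toReal_pos hG0 hGb), ?_⟩
    rw [← ENNReal.ofReal_pow (Real.sqrt_nonneg _), Real.sq_sqrt ENNReal.toReal_nonneg,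
      ENNReal.ofReal_toReal hGb]
  obtain ⟨ha0, ha⟩ := ha
  obtain ⟨hb0, hb⟩ := hb
  set A := ENNReal.ofReal a with hA
  set B := ENNReal.ofReal b with hB
  have hA0 : A ≠ 0 := by simp [hA, ha0]
  have hB0 : B ≠ 0 := by simp [hB, hb0]
  have hAt : A ≠ ⊤ := ENNReal.ofReal_ne_top
  have hBt : B ≠ ⊤ := ENNReal.ofReal_ne_top
  have hA1 : A⁻¹ * A = 1 := ENNReal.inv_mul_cancel hA0 hAt
  have hB1 : B⁻¹ * B = 1 := ENNReal.inv_mul_cancel hB0 hBt
  have hn := pl_norm (fun s => A⁻¹ ^ 2 * F s) (fun s => B⁻¹ ^ 2 * G s) (fun s => (A⁻¹ * B⁻¹) * H s)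
    (hF.const_mul _) (hG.const_mul _) (hH.const_mul _)
    (by rw [← ENNReal.mul_iSup, ha, ← mul_pow, hA1, one_pow])
    (by rw [← ENNReal.mul_iSup, hb, ← mul_pow, hB1, one_pow])
    (by
      intro s t
      calc A⁻¹ ^ 2 * F s * (B⁻¹ ^ 2 * G t) = (A⁻¹ * B⁻¹) ^ 2 * (F s * G t) := by ring
        _ ≤ (A⁻¹ * B⁻¹) ^ 2 * H ((s + t) / 2) ^ 2 := by gcongr; exact h s t
        _ = _ := by ring)
  rw [lintegral_const_mul _ hF, lintegral_const_mul _ hG, lintegral_const_mul _ hH] at hn
  have h1 := amgm (A⁻¹ ^ 2 * ∫⁻ s, F s) (B⁻¹ ^ 2 * ∫⁻ s, G s)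
  have h2 := h1.trans (pow_le_pow_left' hn 2)
  have h3 : 4 * ((∫⁻ s, F s) * (∫⁻ s, G s)) ≤ 4 * (∫⁻ s, H s) ^ 2 := by
    have h4 := mul_le_mul_right h2 ((A * B) ^ 2)
    calc 4 * ((∫⁻ s, F s) * (∫⁻ s, G s))
        = 4 * ((A⁻¹ * A) ^ 2 * (B⁻¹ * B) ^ 2 * ((∫⁻ s, F s) * (∫⁻ s, G s))) := by
          rw [hA1, hB1]; ring
      _ = (A * B) ^ 2 * (4 * (A⁻¹ ^ 2 * (∫⁻ s, F s) * (B⁻¹ ^ 2 * ∫⁻ s, G s))) := by ring
      _ ≤ (A * B) ^ 2 * (2 * (A⁻¹ * B⁻¹ * ∫⁻ s, H s)) ^ 2 := h4
      _ = 4 * ((A⁻¹ * A) ^ 2 * (B⁻¹ * B) ^ 2 * (∫⁻ s, H s) ^ 2) := by ring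
      _ = _ := by rw [hA1, hB1]; ring
  have h5 := (ENNReal.mul_le_mul_iff_right (a := 4) (by norm_num) (by norm_num)).1 h3
  exact h5

/-- Additive Prekopa-Leindler in dimension one. -/
theorem pl_add (F G H : ℝ → ENNReal) (hF : Measurable F) (hG : Measurable G) (hH : Measurable H)
    (h : ∀ s t, F s * G t ≤ H ((s + t) / 2) ^ 2) :
    (∫⁻ s, F s) * (∫⁻ s, G s) ≤ (∫⁻ s, H s) ^ 2 := by
  have hsup : ∀ (Φ : ℝ → ENNReal), Measurable Φ →
      ∫⁻ s, Φ s = ⨆ k : ℕ, ∫⁻ s, min (Φ s) (k : ENNReal) := by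
    intro Φ hΦ
    rw [← lintegral_iSup (fun k => hΦ.min measurable_const) (by
      intro i j hij s
      exact min_le_min le_rfl (by exact_mod_cast hij))]
    apply lintegral_congr
    intro s
    have : ⨆ k : ℕ, (k : ENNReal) = ⊤ := ENNReal.iSup_natCast
    rw [← inf_iSup_eq (Φ s) (fun k : ℕ => (k : ENNReal)), this, inf_top_eq]
  rw [hsup F hF, hsup G hG, ENNReal.iSup_mul]
  simp_rw [ENNReal.mul_iSup]
  apply iSup_le
  intro i
  apply iSup_le
  intro j
  refine le_trans (b := (∫⁻ s, min (F s) ((max i j : ℕ) : ENNReal)) * (∫⁻ s, min (G s) ((max i j : ℕ) : ENNReal))) ?_ ?_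
  · apply mul_le_mul'
    · apply lintegral_mono
      intro s
      exact min_le_min le_rfl (by exact_mod_cast le_max_left i j)
    · apply lintegral_mono
      intro s
      exact min_le_min le_rfl (by exact_mod_cast le_max_right i j)
  · generalize max i j = k
    have hb : ∀ (Φ : ℝ → ENNReal), ⨆ s, min (Φ s) (k : ENNReal) ≠ ⊤ := by
      intro Φ
      apply ne_top_of_le_ne_top (ENNReal.natCast_ne_top k)
      exact iSup_le fun s => min_le_right _ _
    apply pl_bdd _ _ _ (hF.min measurable_const) (hG.min measurable_const) hH (hb F) (hb G)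
    intro s t
    exact (mul_le_mul' (min_le_left _ _) (min_le_left _ _)).trans (h s t)

theorem exp_sub (f : ℝ → ENNReal) :
    ∫⁻ x in Ioi (0:ℝ), f x = ∫⁻ s, ENNReal.ofReal (Real.exp s) * f (Real.exp s) := by
  have := lintegral_image_eq_lintegral_abs_deriv_mul (s := univ) (f := Real.exp) (f' := Real.exp)
    MeasurableSet.univ (fun x _ => (Real.hasDerivAt_exp x).hasDerivWithinAt)
    Real.exp_injective.injOn f
  rw [image_univ, Real.range_exp] at this
  rw [this]
  simp [abs_of_pos (Real.exp_pos _)]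

/-- Multiplicative Prekopa-Leindler on the half line. -/
theorem pl_mul (f g h : ℝ → ENNReal) (hf : Measurable f) (hg : Measurable g) (hh : Measurable h)
    (H : ∀ y z, 0 < y → 0 < z → f y * g z ≤ h (Real.sqrt (y * z)) ^ 2) :
    (∫⁻ y in Ioi (0:ℝ), f y) * (∫⁻ y in Ioi (0:ℝ), g y) ≤ (∫⁻ y in Ioi (0:ℝ), h y) ^ 2 := by
  rw [exp_sub, exp_sub, exp_sub]
  apply pl_add
  · fun_prop
  · fun_prop
  · fun_prop
  intro s t
  have e1 : Real.sqrt (Real.exp s * Real.exp t) = Real.exp ((s + t) / 2) := by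
    rw [← Real.exp_add, Real.sqrt_eq_rpow, ← Real.exp_mul]
    ring_nf
  have e2 : ENNReal.ofReal (Real.exp s) * ENNReal.ofReal (Real.exp t)
      = ENNReal.ofReal (Real.exp ((s + t) / 2)) ^ 2 := by
    rw [← ENNReal.ofReal_mul (Real.exp_pos _).le, ← ENNReal.ofReal_pow (Real.exp_pos _).le,
      ← Real.exp_add, ← Real.exp_nat_mul]
    congr 2
    push_cast
    ring
  have h1 := H _ _ (Real.exp_pos s) (Real.exp_pos t)
  rw [e1] at h1
  calc ENNReal.ofReal (Real.exp s) * f (Real.exp s) * (ENNReal.ofReal (Real.exp t) * g (Real.exp t))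
      = (ENNReal.ofReal (Real.exp s) * ENNReal.ofReal (Real.exp t)) * (f (Real.exp s) * g (Real.exp t)) := by ring
    _ ≤ ENNReal.ofReal (Real.exp ((s + t) / 2)) ^ 2 * h (Real.exp ((s + t) / 2)) ^ 2 := by
        rw [e2]; gcongr
    _ = _ := by ring

/-- Multiplicative Prekopa-Leindler on the positive orthant. -/
theorem pl_orthant (n : ℕ) : ∀ (f g h : (Fin n → ℝ) → ENNReal), Measurable f → Measurable g →
    Measurable h →
    (∀ y z : Fin n → ℝ, (∀ i, 0 < y i) → (∀ i, 0 < z i) →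
      f y * g z ≤ h (fun i => Real.sqrt (y i * z i)) ^ 2) →
    (∫⁻ y, f y ∂(Measure.pi fun _ : Fin n => (volume : Measure ℝ).restrict (Ioi 0))) *
      (∫⁻ y, g y ∂(Measure.pi fun _ : Fin n => (volume : Measure ℝ).restrict (Ioi 0))) ≤
    (∫⁻ y, h y ∂(Measure.pi fun _ : Fin n => (volume : Measure ℝ).restrict (Ioi 0))) ^ 2 := by
  induction n with
  | zero =>
    intro f g h hf hg hh H
    rw [Measure.pi_of_empty]
    simp only [lintegral_dirac]
    have key0 : ∀ a b c : Fin 0 → ℝ, f a * g b ≤ h c ^ 2 := by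
      intro a b c
      have h1 := H a b (fun i => i.elim0) (fun i => i.elim0)
      rwa [Subsingleton.elim (fun i => Real.sqrt (a i * b i)) c] at h1
    exact key0 _ _ _
  | succ n ih =>
    intro f g h hf hg hh H
    have hcons : Measurable (fun p : ℝ × (Fin n → ℝ) => (Fin.cons p.1 p.2 : Fin (n+1) → ℝ)) := by
      rw [measurable_pi_iff]
      intro i
      refine Fin.cases ?_ ?_ i
      · simpa using measurable_fst
      · intro j
        simp only [Fin.cons_succ]
        fun_prop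
    have key : ∀ (Φ : (Fin (n+1) → ℝ) → ENNReal), Measurable Φ →
        ∫⁻ y, Φ y ∂(Measure.pi fun _ : Fin (n+1) => (volume : Measure ℝ).restrict (Ioi 0))
        = ∫⁻ x in Ioi (0:ℝ), ∫⁻ y, Φ (Fin.cons x y)
            ∂(Measure.pi fun _ : Fin n => (volume : Measure ℝ).restrict (Ioi 0)) := by
      intro Φ hΦ
      have mp := (measurePreserving_piFinSuccAbove
        (fun _ : Fin (n+1) => (volume : Measure ℝ).restrict (Ioi 0)) 0).symm
      rw [← mp.lintegral_comp hΦ]
      rw [lintegral_prod]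
      · have e : ∀ (x : ℝ) (y : Fin n → ℝ),
            (MeasurableEquiv.piFinSuccAbove (fun _ : Fin (n+1) => ℝ) 0).symm (x, y) = Fin.cons x y := by
          intro x y
          exact Fin.insertNth_zero' x y
        simp_rw [e]
      · exact (hΦ.comp (MeasurableEquiv.measurable _)).aemeasurable
    have hmeas : ∀ (Φ : (Fin (n+1) → ℝ) → ENNReal), Measurable Φ →
        Measurable (fun x : ℝ => ∫⁻ y, Φ (Fin.cons x y)
            ∂(Measure.pi fun _ : Fin n => (volume : Measure ℝ).restrict (Ioi 0))) := by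
      intro Φ hΦ
      exact Measurable.lintegral_prod_right' (f := fun p : ℝ × (Fin n → ℝ) => Φ (Fin.cons p.1 p.2))
        (hΦ.comp hcons)
    have hc1 : ∀ (Φ : (Fin (n+1) → ℝ) → ENNReal), Measurable Φ → ∀ x : ℝ,
        Measurable (fun y : Fin n → ℝ => Φ (Fin.cons x y)) := by
      intro Φ hΦ x
      exact (hΦ.comp hcons).comp (measurable_const.prodMk measurable_id)
    rw [key f hf, key g hg, key h hh]
    apply pl_mul _ _ _ (hmeas f hf) (hmeas g hg) (hmeas h hh)
    intro y0 z0 hy0 hz0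
    apply ih _ _ _ (hc1 f hf y0) (hc1 g hg z0) (hc1 h hh _)
    intro y z hy hz
    have := H (Fin.cons y0 y) (Fin.cons z0 z) (by
      intro i
      refine Fin.cases ?_ ?_ i
      · simpa using hy0
      · intro j; simpa using hy j) (by
      intro i
      refine Fin.cases ?_ ?_ i
      · simpa using hz0
      · intro j; simpa using hz j)
    have e3 : (fun i => Real.sqrt ((Fin.cons y0 y : Fin (n+1) → ℝ) i * (Fin.cons z0 z : Fin (n+1) → ℝ) i))
        = (Fin.cons (Real.sqrt (y0 * z0)) (fun i => Real.sqrt (y i * z i)) : Fin (n+1) → ℝ) := by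
      funext i
      refine Fin.cases ?_ ?_ i
      · simp
      · intro j; simp
    rw [e3] at this
    exact this

end Pool.Agent.Lib.MP_3f0dd2_gt
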