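import Mathlib
import Pool.Agent.Lib.MP_3f0dd2_gt.PL

set_option autoImplicit false
open MeasureTheory Set Matrix Pointwise

namespace Pool.Agent.Lib.MP_3f0dd2_gt

theorem vol_orthant (n : ℕ) (Q : Set (Fin n → ℝ)) (hQ : MeasurableSet Q) :
    volume {y : Fin n → ℝ | y ∈ Q ∧ ∀ i, 0 ≤ y i} =
      ∫⁻ y, Q.indicator 1 y ∂(Measure.pi fun _ : Fin n => (volume : Measure ℝ).restrict (Ioi 0)) := by
  rw [lintegral_indicator_one hQ]
  have e1 : (fun _ : Fin n => (volume : Measure ℝ).restrict (Ioi 0))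
      = (fun _ : Fin n => (volume : Measure ℝ).restrict (Ici 0)) := by
    funext _
    exact Measure.restrict_congr_set Ioi_ae_eq_Ici
  rw [e1, ← Measure.restrict_pi_pi (fun _ : Fin n => (volume : Measure ℝ)) (fun _ => Ici 0),
    Measure.restrict_apply hQ]
  congr 1
  ext y
  simp only [mem_ofPred_eq, mem_inter_iff, mem_pi, mem_univ, mem_Ici, forall_const]

theorem vol_preimage (n : ℕ) (M : Matrix (Fin n) (Fin n) ℝ) (hM : M.det ≠ 0)
    (Q : Set (Fin n → ℝ)) (hQ : MeasurableSet Q) :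
    volume {x : Fin n → ℝ | M *ᵥ x ∈ Q} = ENNReal.ofReal |(M.det)⁻¹| * volume Q := by
  have h := Real.map_matrix_volume_pi_eq_smul_volume_pi hM
  have h2 : Measure.map (toLin' M) volume Q = (ENNReal.ofReal |(M.det)⁻¹| • (volume : Measure (Fin n → ℝ))) Q := by
    rw [h]
  rw [Measure.map_apply (by
    have : Continuous (toLin' M) := LinearMap.continuous_on_pi _
    exact this.measurable) hQ] at h2
  exact h2

theorem dot_meas (n : ℕ) (N : Matrix (Fin n) (Fin n) ℝ) :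
    MeasurableSet {y : Fin n → ℝ | (N *ᵥ y) ⬝ᵥ (N *ᵥ y) < 1} := by
  apply measurableSet_lt _ measurable_const
  have : Continuous (fun y : Fin n → ℝ => N *ᵥ y) := (Continuous.matrix_mulVec continuous_const continuous_id)
  exact (Continuous.dotProduct this this).measurable

theorem cs (n : ℕ) (x y : Fin n → ℝ) (hx : x ⬝ᵥ x < 1) (hy : y ⬝ᵥ y < 1) : x ⬝ᵥ y < 1 := by
  have h : 0 ≤ (x - y) ⬝ᵥ (x - y) := by
    simp only [dotProduct]
    exact Finset.sum_nonneg fun i _ => mul_self_nonneg _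
  have e : (x - y) ⬝ᵥ (x - y) = x ⬝ᵥ x + y ⬝ᵥ y - 2 * (x ⬝ᵥ y) := by
    rw [sub_dotProduct, dotProduct_sub, dotProduct_sub, dotProduct_comm y x]
    ring
  linarith

theorem main_pi (n : ℕ) (M : Matrix (Fin n) (Fin n) ℝ) (hM : M.det ≠ 0) :
    volume {x : Fin n → ℝ | x ⬝ᵥ x < 1 ∧ ∀ i, 0 ≤ (M *ᵥ x) i} *
      volume {x : Fin n → ℝ | x ⬝ᵥ x < 1 ∧ ∀ i, 0 ≤ ((Mᵀ)⁻¹ *ᵥ x) i} ≤
    (volume {x : Fin n → ℝ | x ⬝ᵥ x < 1 ∧ ∀ i, 0 ≤ x i}) ^ 2 := by
  have hu : IsUnit M.det := isUnit_iff_ne_zero.2 hM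
  have huT : IsUnit (Mᵀ).det := by rwa [det_transpose]
  have hinv1 : M⁻¹ * M = 1 := nonsing_inv_mul M hu
  have hinv2 : M * M⁻¹ = 1 := mul_nonsing_inv M hu
  have hT1 : Mᵀ * (Mᵀ)⁻¹ = 1 := mul_nonsing_inv _ huT
  have oct_meas : MeasurableSet {y : Fin n → ℝ | ∀ i, 0 ≤ y i} := by
    rw [show {y : Fin n → ℝ | ∀ i, 0 ≤ y i} = ⋂ i, {y | 0 ≤ y i} by ext; simp]
    exact MeasurableSet.iInter fun i => measurableSet_le measurable_const (measurable_pi_apply i)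
  have e1 : volume {x : Fin n → ℝ | x ⬝ᵥ x < 1 ∧ ∀ i, 0 ≤ (M *ᵥ x) i} =
      ENNReal.ofReal |(M.det)⁻¹| *
        volume {y : Fin n → ℝ | y ∈ {y : Fin n → ℝ | (M⁻¹ *ᵥ y) ⬝ᵥ (M⁻¹ *ᵥ y) < 1} ∧ ∀ i, 0 ≤ y i} := by
    rw [← vol_preimage n M hM]
    · congr 1
      ext x
      simp only [mem_ofPred_eq, mulVec_mulVec, hinv1, one_mulVec]
    · exact (dot_meas n M⁻¹).inter oct_meas
  have e2 : volume {x : Fin n → ℝ | x ⬝ᵥ x < 1 ∧ ∀ i, 0 ≤ ((Mᵀ)⁻¹ *ᵥ x) i} =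
      ENNReal.ofReal |M.det| *
        volume {y : Fin n → ℝ | y ∈ {y : Fin n → ℝ | (Mᵀ *ᵥ y) ⬝ᵥ (Mᵀ *ᵥ y) < 1} ∧ ∀ i, 0 ≤ y i} := by
    have hd : ((Mᵀ)⁻¹).det ≠ 0 := by
      rw [det_nonsing_inv, det_transpose]
      simpa using hM
    have hd2 : (((Mᵀ)⁻¹).det)⁻¹ = M.det := by
      rw [det_nonsing_inv, det_transpose, Ring.inverse_eq_inv', inv_inv]
    rw [← hd2, ← vol_preimage n (Mᵀ)⁻¹ hd]
    · congr 1
      ext x
      simp only [mem_ofPred_eq, mulVec_mulVec, hT1, one_mulVec]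
    · exact (dot_meas n Mᵀ).inter oct_meas
  have e3 : volume {x : Fin n → ℝ | x ⬝ᵥ x < 1 ∧ ∀ i, 0 ≤ x i} =
      volume {y : Fin n → ℝ | y ∈ {y : Fin n → ℝ | ((1 : Matrix (Fin n) (Fin n) ℝ) *ᵥ y) ⬝ᵥ ((1 : Matrix (Fin n) (Fin n) ℝ) *ᵥ y) < 1} ∧ ∀ i, 0 ≤ y i} := by
    simp only [one_mulVec]
    rfl
  rw [e1, e2, e3, vol_orthant n _ (dot_meas n _), vol_orthant n _ (dot_meas n _), vol_orthant n _ (dot_meas n _)]
  have hpl := pl_orthant n
    ({y : Fin n → ℝ | (M⁻¹ *ᵥ y) ⬝ᵥ (M⁻¹ *ᵥ y) < 1}.indicator 1)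
    ({y : Fin n → ℝ | (Mᵀ *ᵥ y) ⬝ᵥ (Mᵀ *ᵥ y) < 1}.indicator 1)
    ({y : Fin n → ℝ | ((1 : Matrix (Fin n) (Fin n) ℝ) *ᵥ y) ⬝ᵥ ((1 : Matrix (Fin n) (Fin n) ℝ) *ᵥ y) < 1}.indicator 1)
    (measurable_one.indicator (dot_meas n _)) (measurable_one.indicator (dot_meas n _))
    (measurable_one.indicator (dot_meas n _)) (by
      intro y z hy hz
      by_cases h1 : y ∈ {y : Fin n → ℝ | (M⁻¹ *ᵥ y) ⬝ᵥ (M⁻¹ *ᵥ y) < 1}
      · by_cases h2 : z ∈ {y : Fin n → ℝ | (Mᵀ *ᵥ y) ⬝ᵥ (Mᵀ *ᵥ y) < 1}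
        · have h3 : (fun i => Real.sqrt (y i * z i)) ∈ {y : Fin n → ℝ | ((1 : Matrix (Fin n) (Fin n) ℝ) *ᵥ y) ⬝ᵥ ((1 : Matrix (Fin n) (Fin n) ℝ) *ᵥ y) < 1} := by
            simp only [mem_ofPred_eq, one_mulVec]
            have h4 := cs n _ _ h1 h2
            have h5 : (M⁻¹ *ᵥ y) ⬝ᵥ (Mᵀ *ᵥ z) = y ⬝ᵥ z := by
              rw [dotProduct_comm, mulVec_transpose, ← dotProduct_mulVec, mulVec_mulVec, hinv2, one_mulVec, dotProduct_comm]
            rw [h5] at h4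
            convert h4 using 1
            simp only [dotProduct]
            apply Finset.sum_congr rfl
            intro i _
            exact Real.mul_self_sqrt (mul_pos (hy i) (hz i)).le
          rw [indicator_of_mem h1, indicator_of_mem h2, indicator_of_mem h3]
          simp
        · rw [indicator_of_notMem h2]; simp
      · rw [indicator_of_notMem h1]; simp)
  have hs : ENNReal.ofReal |(M.det)⁻¹| * ENNReal.ofReal |M.det| = 1 := by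
    rw [← ENNReal.ofReal_mul (abs_nonneg _), ← abs_mul, inv_mul_cancel₀ hM]
    simp
  rw [mul_mul_mul_comm, hs, one_mul]
  exact hpl

theorem cone_vol (n : ℕ) (s : Set (Metric.sphere (0 : EuclideanSpace ℝ (Fin n)) 1))
    (K : Set (Fin n → ℝ)) (hK : MeasurableSet K)
    (hs : ∀ x : Metric.sphere (0 : EuclideanSpace ℝ (Fin n)) 1, x ∈ s ↔ (x.1 : EuclideanSpace ℝ (Fin n)).ofLp ∈ K)
    (hc : ∀ (c : ℝ) (x : Fin n → ℝ), 0 < c → (c • x ∈ K ↔ x ∈ K)) :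
    (volume : Measure (EuclideanSpace ℝ (Fin n))).toSphere s =
      n * volume {x : Fin n → ℝ | x ⬝ᵥ x < 1 ∧ x ∈ K} := by
  have hsm : MeasurableSet s := by
    have : s = (fun x : Metric.sphere (0 : EuclideanSpace ℝ (Fin n)) 1 => (x.1 : EuclideanSpace ℝ (Fin n)).ofLp) ⁻¹' K := by
      ext x; exact hs x
    rw [this]
    apply MeasurableSet.preimage hK
    exact ((PiLp.volume_preserving_ofLp (Fin n)).measurable).comp measurable_subtype_coe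
  rw [Measure.toSphere_apply' _ hsm, finrank_euclideanSpace_fin]
  rcases Nat.eq_zero_or_pos n with rfl | hn
  · simp
  congr 1
  have : Nonempty (Fin n) := ⟨⟨0, hn⟩⟩
  have hnorm : ∀ x : EuclideanSpace ℝ (Fin n), ‖x‖ ^ 2 = x.ofLp ⬝ᵥ x.ofLp := by
    intro x
    rw [EuclideanSpace.norm_sq_eq]
    simp [dotProduct, sq]
  have hset : Ioo (0:ℝ) 1 • ((fun x : Metric.sphere (0 : EuclideanSpace ℝ (Fin n)) 1 => (x : EuclideanSpace ℝ (Fin n))) '' s)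
      = (WithLp.ofLp ⁻¹' {x : Fin n → ℝ | x ⬝ᵥ x < 1 ∧ x ∈ K}) \ {(0 : EuclideanSpace ℝ (Fin n))} := by
    ext x
    constructor
    · rintro ⟨c, hc1, y, ⟨z, hz, rfl⟩, rfl⟩
      have hz1 : ‖(z : EuclideanSpace ℝ (Fin n))‖ = 1 := by simp
      refine ⟨⟨?_, ?_⟩, ?_⟩
      · simp only
        rw [← hnorm, norm_smul, hz1, mul_one, Real.norm_eq_abs, sq_abs]
        have := hc1.1
        have := hc1.2
        nlinarith
      · simp only [WithLp.ofLp_smul]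
        exact (hc c _ hc1.1).2 ((hs z).1 hz)
      · simp only [mem_singleton_iff, smul_eq_zero, not_or]
        refine ⟨hc1.1.ne', ?_⟩
        intro h
        rw [h] at hz1
        simp at hz1
    · rintro ⟨⟨h1, h2⟩, h3⟩
      have hx0 : x ≠ 0 := h3
      have hxn : 0 < ‖x‖ := norm_pos_iff.2 hx0
      have hx1 : ‖x‖ < 1 := by
        have : ‖x‖ ^ 2 < 1 := by rw [hnorm]; exact h1
        nlinarith
      refine ⟨‖x‖, ⟨hxn, hx1⟩, ‖x‖⁻¹ • x, ⟨⟨‖x‖⁻¹ • x, ?_⟩, ?_, rfl⟩, ?_⟩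
      · rw [mem_sphere_zero_iff_norm, norm_smul, norm_inv, norm_norm, inv_mul_cancel₀ hxn.ne']
      · rw [hs]
        simp only [WithLp.ofLp_smul]
        exact (hc _ _ (inv_pos.2 hxn)).2 h2
      · simp only
        rw [smul_smul, mul_inv_cancel₀ hxn.ne', one_smul]
  rw [hset, measure_sdiff_null (measure_singleton _)]
  apply (PiLp.volume_preserving_ofLp (Fin n)).measure_preimage
  apply MeasurableSet.nullMeasurableSet
  have hm : MeasurableSet {x : Fin n → ℝ | x ⬝ᵥ x < 1} := by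
    have := dot_meas n 1
    simpa only [one_mulVec] using this
  exact hm.inter hK

end Pool.Agent.Lib.MP_3f0dd2_gt
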