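import Mathlib

set_option autoImplicit false
open MeasureTheory Metric Filter Topology Set

namespace Pool.Agent.Lib.MP_3f0dd2_gt

theorem unif_half {X : Type*} [MetricSpace X] [SecondCountableTopology X] [MeasurableSpace X] [BorelSpace X]
    (μ ν : Measure X) [IsFiniteMeasure μ] [IsFiniteMeasure ν] (x0 : X)
    (hμ : ∀ (x : X) (r : ℝ), μ (ball x r) = μ (ball x0 r)) (hν : ∀ (x : X) (r : ℝ), ν (ball x r) = ν (ball x0 r))
    (hν0 : ∀ r > 0, ν (ball x0 r) ≠ 0) (s : ℕ → ℝ) (hs : ∀ k, 0 < s k) (hs0 : Tendsto s atTop (𝓝 0))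
    (c : ENNReal) (hc : Tendsto (fun k => μ (ball x0 (s k)) / ν (ball x0 (s k))) atTop (𝓝 c))
    (U : Set X) (hU : IsOpen U) : μ U ≤ c * ν U := by
  classical
  have hmeas : ∀ r : ℝ, MeasurableSet {p : X × X | dist p.1 p.2 < r} := fun r =>
    measurableSet_lt (measurable_fst.dist measurable_snd) measurable_const
  have hball : ∀ (x : X) (r : ℝ), {y : X | dist x y < r} = ball x r := by
    intro x r
    ext y
    simp [dist_comm]
  have hsec : ∀ (r : ℝ) (x : X) (κ : Measure X), ∫⁻ y in U, ({p : X × X | dist p.1 p.2 < r}.indicator 1 (x, y) : ENNReal) ∂κ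
      = κ (U ∩ ball x r) := by
    intro r x κ
    have : (fun y => ({p : X × X | dist p.1 p.2 < r}.indicator 1 (x, y) : ENNReal))
        = (ball x r).indicator 1 := by
      funext y
      simp only [indicator_apply, Set.mem_ofPred_eq, mem_ball, Pi.one_apply, dist_comm]
    rw [this, lintegral_indicator_one isOpen_ball.measurableSet,
      Measure.restrict_apply isOpen_ball.measurableSet, inter_comm]
  have hsec' : ∀ (r : ℝ) (y : X) (κ : Measure X), ∫⁻ x in U, ({p : X × X | dist p.1 p.2 < r}.indicator 1 (x, y) : ENNReal) ∂κ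
      = κ (U ∩ ball y r) := by
    intro r y κ
    have : (fun x => ({p : X × X | dist p.1 p.2 < r}.indicator 1 (x, y) : ENNReal))
        = (ball y r).indicator 1 := by
      funext x
      simp only [indicator_apply, Set.mem_ofPred_eq, mem_ball, Pi.one_apply]
    rw [this, lintegral_indicator_one isOpen_ball.measurableSet,
      Measure.restrict_apply isOpen_ball.measurableSet, inter_comm]
  set f : ℕ → X → ENNReal := fun k x => ν (U ∩ ball x (s k)) / ν (ball x0 (s k)) with hf
  have hfm : ∀ k, Measurable (f k) := by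
    intro k
    apply Measurable.div_const
    have : (fun x => ν (U ∩ ball x (s k))) = fun x => (ν.restrict U) (Prod.mk x ⁻¹' {p : X × X | dist p.1 p.2 < s k}) := by
      funext x
      have h1 : Prod.mk x ⁻¹' {p : X × X | dist p.1 p.2 < s k} = ball x (s k) := by
        ext y
        simp [dist_comm]
      rw [h1, Measure.restrict_apply isOpen_ball.measurableSet, inter_comm]
    rw [this]
    exact measurable_measure_prodMk_left (hmeas (s k))
  have h1 : μ U ≤ ∫⁻ x in U, liminf (fun k => f k x) atTop ∂μ := by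
    have h0 : μ U = ∫⁻ x in U, (1 : ENNReal) ∂μ := by simp
    rw [h0]
    apply setLIntegral_mono' hU.measurableSet
    intro x hx
    have hev : ∀ᶠ k in atTop, f k x = 1 := by
      obtain ⟨ε, hε, hεU⟩ := Metric.isOpen_iff.1 hU x hx
      have h2 : ∀ᶠ k in atTop, s k < ε := hs0.eventually (gt_mem_nhds hε)
      filter_upwards [h2] with k hk
      have h3 : U ∩ ball x (s k) = ball x (s k) :=
        inter_eq_right.2 ((ball_subset_ball hk.le).trans hεU)
      simp only [hf]
      rw [h3, hν x (s k)]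
      exact ENNReal.div_self (hν0 _ (hs k)) (measure_ne_top _ _)
    rw [liminf_congr hev]
    simp
  have h2 := lintegral_liminf_le (μ := μ.restrict U) (u := atTop) hfm
  have h3 : ∀ k, ∫⁻ x in U, f k x ∂μ ≤ μ (ball x0 (s k)) / ν (ball x0 (s k)) * ν U := by
    intro k
    simp only [hf, div_eq_mul_inv]
    rw [lintegral_mul_const' _ _ (by simpa using hν0 _ (hs k))]
    have h4 : ∫⁻ x in U, ν (U ∩ ball x (s k)) ∂μ = ∫⁻ y in U, μ (U ∩ ball y (s k)) ∂ν := by
      have e1 : ∀ x, ν (U ∩ ball x (s k)) = ∫⁻ y in U, ({p : X × X | dist p.1 p.2 < s k}.indicator 1 (x, y) : ENNReal) ∂ν :=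
        fun x => (hsec (s k) x ν).symm
      have e2 : ∀ y, μ (U ∩ ball y (s k)) = ∫⁻ x in U, ({p : X × X | dist p.1 p.2 < s k}.indicator 1 (x, y) : ENNReal) ∂μ :=
        fun y => (hsec' (s k) y μ).symm
      simp_rw [e1, e2]
      apply lintegral_lintegral_swap
      exact (measurable_one.indicator (hmeas (s k))).aemeasurable
    rw [h4]
    have h5 : ∫⁻ y in U, μ (U ∩ ball y (s k)) ∂ν ≤ μ (ball x0 (s k)) * ν U := by
      calc ∫⁻ y in U, μ (U ∩ ball y (s k)) ∂ν ≤ ∫⁻ _y in U, μ (ball x0 (s k)) ∂ν := by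
            apply lintegral_mono
            intro y
            exact (measure_mono inter_subset_right).trans (hμ y (s k)).le
        _ = _ := by simp
    calc _ ≤ μ (ball x0 (s k)) * ν U * (ν (ball x0 (s k)))⁻¹ := by gcongr
      _ = _ := by ring
  calc μ U ≤ _ := h1
    _ ≤ _ := h2
    _ ≤ liminf (fun k => μ (ball x0 (s k)) / ν (ball x0 (s k)) * ν U) atTop := liminf_le_liminf (Eventually.of_forall h3)
    _ = c * ν U := by
      apply Tendsto.liminf_eq
      exact ENNReal.Tendsto.mul_const hc (Or.inr (measure_ne_top _ _))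

/-- Two finite Borel measures on a metric space for which all balls of the same radius have the same
positive measure are proportional. -/
theorem unif {X : Type*} [MetricSpace X] [SecondCountableTopology X] [MeasurableSpace X] [BorelSpace X]
    (μ ν : Measure X) [IsFiniteMeasure μ] [IsFiniteMeasure ν] (x0 : X)
    (hμ : ∀ (x : X) (r : ℝ), μ (ball x r) = μ (ball x0 r)) (hν : ∀ (x : X) (r : ℝ), ν (ball x r) = ν (ball x0 r))
    (hμ0 : ∀ r > 0, μ (ball x0 r) ≠ 0) (hν0 : ∀ r > 0, ν (ball x0 r) ≠ 0) :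
    ∃ c : ENNReal, c ≠ ⊤ ∧ μ = c • ν := by
  obtain ⟨c, -, φ, hφ, hlim⟩ := isCompact_univ.tendsto_subseq (x := fun k : ℕ =>
    μ (ball x0 (1 / ((k : ℝ) + 1))) / ν (ball x0 (1 / ((k : ℝ) + 1)))) (fun _ => mem_univ _)
  set s : ℕ → ℝ := fun k => 1 / ((φ k : ℝ) + 1) with hsdef
  have hs : ∀ k, 0 < s k := fun k => by positivity
  have hs0 : Tendsto s atTop (𝓝 0) := tendsto_one_div_add_atTop_nhds_zero_nat.comp hφ.tendsto_atTop
  have hc1 : Tendsto (fun k => μ (ball x0 (s k)) / ν (ball x0 (s k))) atTop (𝓝 c) := hlim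
  have hc2 : Tendsto (fun k => ν (ball x0 (s k)) / μ (ball x0 (s k))) atTop (𝓝 c⁻¹) := by
    have h1 := tendsto_inv_iff.2 hc1
    refine h1.congr fun k => ?_
    rw [ENNReal.inv_div (Or.inl (measure_ne_top _ _)) (Or.inl (hν0 _ (hs k)))]
  have k1 := unif_half μ ν x0 hμ hν hν0 s hs hs0 c hc1
  have k2 := unif_half ν μ x0 hν hμ hμ0 s hs hs0 c⁻¹ hc2
  have hμu : μ univ ≠ 0 := fun h => hμ0 1 one_pos (measure_mono_null (subset_univ _) h)
  have hνu : ν univ ≠ 0 := fun h => hν0 1 one_pos (measure_mono_null (subset_univ _) h)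
  have hct : c ≠ ⊤ := by
    rintro rfl
    have := k2 univ isOpen_univ
    simp at this
    exact hνu (by rw [this]; simp)
  have hc0 : c ≠ 0 := by
    rintro rfl
    have := k1 univ isOpen_univ
    simp at this
    exact hμu (by rw [this]; simp)
  refine ⟨c, hct, ?_⟩
  have hopen : ∀ U : Set X, IsOpen U → μ U = (c • ν) U := by
    intro U hU
    rw [Measure.smul_apply, smul_eq_mul]
    refine le_antisymm (k1 U hU) ?_
    calc c * ν U ≤ c * (c⁻¹ * μ U) := by gcongr; exact k2 U hU
      _ = μ U := by rw [← mul_assoc, ENNReal.mul_inv_cancel hc0 hct, one_mul]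
  exact ext_of_generate_finite _ (BorelSpace.measurable_eq (α := X)) isPiSystem_isOpen
    (fun U hU => hopen U hU) (hopen univ isOpen_univ)

end Pool.Agent.Lib.MP_3f0dd2_gt
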