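import Pool.Agent.Lib.MP_3f0dd2_gt.Sph
import Pool.Agent.Lib.MP_3f0dd2_gt.Unif
import Pool.Agent.Lib.MP_3f0dd2_gt.HausS

/-!
# Volume product of spherical simplices for rotation invariant measures
-/

set_option autoImplicit false
open MeasureTheory Metric Filter Topology Set

namespace Pool.Agent.Lib.MP_3f0dd2_gt

/-- The unit ball is made of `2 ^ n` congruent pieces -/
theorem vol_orthant_pow (n : ℕ) :
    2 ^ n * volume {x : Fin n → ℝ | x ⬝ᵥ x < 1 ∧ ∀ i, 0 ≤ x i} = volume {x : Fin n → ℝ | x ⬝ᵥ x < 1} := by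
  classical
  set Q : Set (Fin n → ℝ) := {x | x ⬝ᵥ x < 1 ∧ ∀ i, 0 < x i} with hQ
  have hdot : Continuous fun x : Fin n → ℝ => x ⬝ᵥ x := by
    simp only [dotProduct]
    fun_prop
  have hQo : IsOpen Q := by
    have : Q = {x | x ⬝ᵥ x < 1} ∩ ⋂ i, {x | 0 < x i} := by
      ext x
      simp [hQ]
    rw [this]
    refine (isOpen_lt hdot continuous_const).inter (isOpen_iInter_of_finite fun i => ?_)
    exact isOpen_lt continuous_const (continuous_apply i)
  set N : Set (Fin n → ℝ) := ⋃ i, {x | x i = 0} with hN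
  have hN0 : volume N = 0 := by
    rw [hN, measure_iUnion_null_iff]
    intro i
    have h1 : {x : Fin n → ℝ | x i = 0} = ((LinearMap.ker (LinearMap.proj i : (Fin n → ℝ) →ₗ[ℝ] ℝ) : Submodule ℝ (Fin n → ℝ)) : Set (Fin n → ℝ)) := by
      ext x
      simp
    rw [h1]
    apply Measure.addHaar_submodule
    intro htop
    have h2 : (Pi.single i (1 : ℝ) : Fin n → ℝ) ∈ (LinearMap.ker (LinearMap.proj i : (Fin n → ℝ) →ₗ[ℝ] ℝ)) := by
      rw [htop]
      exact Submodule.mem_top
    simp at h2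
  set sg : (Fin n → Bool) → Fin n → ℝ := fun ε i => if ε i then 1 else -1 with hsg
  set M : (Fin n → Bool) → Matrix (Fin n) (Fin n) ℝ := fun ε => Matrix.diagonal (sg ε) with hM
  have hMv : ∀ ε x i, (M ε).mulVec x i = sg ε i * x i := by
    intro ε x i
    rw [hM, Matrix.mulVec_diagonal]
  have hsq : ∀ ε i, sg ε i * sg ε i = 1 := by
    intro ε i
    simp only [hsg]
    split_ifs <;> norm_num
  have hdet : ∀ ε, |((M ε).det)⁻¹| = 1 := by
    intro ε
    rw [hM, Matrix.det_diagonal, abs_inv, Finset.abs_prod]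
    have : ∀ i, |sg ε i| = 1 := by
      intro i
      simp only [hsg]
      split_ifs <;> simp
    simp [this]
  have hdet0 : ∀ ε, (M ε).det ≠ 0 := by
    intro ε h0
    have := hdet ε
    rw [h0] at this
    simp at this
  set A : (Fin n → Bool) → Set (Fin n → ℝ) := fun ε => {x | (M ε).mulVec x ∈ Q} with hA
  have hAv : ∀ ε, volume (A ε) = volume Q := by
    intro ε
    rw [hA, vol_preimage n (M ε) (hdet0 ε) Q hQo.measurableSet, hdet]
    simp
  have hAm : ∀ ε, MeasurableSet (A ε) := by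
    intro ε
    have hc : Continuous (fun y : Fin n → ℝ => (M ε).mulVec y) :=
      (Continuous.matrix_mulVec continuous_const continuous_id)
    exact (hQo.preimage hc).measurableSet
  have hmem : ∀ ε x, x ∈ A ε ↔ x ⬝ᵥ x < 1 ∧ ∀ i, 0 < sg ε i * x i := by
    intro ε x
    simp only [hA, hQ, Set.mem_ofPred_eq, hMv]
    have : (M ε).mulVec x ⬝ᵥ (M ε).mulVec x = x ⬝ᵥ x := by
      simp only [dotProduct, hMv]
      apply Finset.sum_congr rfl
      intro i _
      linear_combination (x i * x i) * hsq ε i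
    rw [this]
  have hdis : Pairwise (Function.onFun Disjoint A) := by
    intro ε ε' hne
    rw [Function.onFun, Set.disjoint_left]
    intro x hx hx'
    rw [hmem] at hx hx'
    apply hne
    funext i
    have h1 := hx.2 i
    have h2 := hx'.2 i
    simp only [hsg] at h1 h2
    cases hε : ε i <;> cases hε' : ε' i <;> simp only [hε, hε', Bool.false_eq_true, if_true, if_false] at h1 h2 ⊢
    · linarith
    · linarith
  have hunion : (⋃ ε, A ε) ∪ ({x : Fin n → ℝ | x ⬝ᵥ x < 1} ∩ N) = {x : Fin n → ℝ | x ⬝ᵥ x < 1} := by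
    ext x
    simp only [Set.mem_union, Set.mem_iUnion, Set.mem_inter_iff, hmem, Set.mem_ofPred_eq, hN]
    constructor
    · rintro (⟨ε, h, -⟩ | ⟨h, -⟩) <;> exact h
    · intro h
      by_cases h0 : ∃ i, x i = 0
      · right
        exact ⟨h, h0⟩
      · left
        push Not at h0
        refine ⟨fun i => decide (0 < x i), h, fun i => ?_⟩
        simp only [hsg]
        by_cases hi : 0 < x i
        · simp [hi]
        · have : x i < 0 := lt_of_le_of_ne (not_lt.1 hi) (h0 i)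
          simp [hi, this]
  have h1 : volume {x : Fin n → ℝ | x ⬝ᵥ x < 1} = volume (⋃ ε, A ε) := by
    refine le_antisymm ?_ (measure_mono ?_)
    · rw [← hunion]
      refine (measure_union_le _ _).trans ?_
      rw [measure_mono_null Set.inter_subset_right hN0, add_zero]
    · rw [← hunion]
      exact Set.subset_union_left
  have h2 : volume (⋃ ε, A ε) = 2 ^ n * volume Q := by
    rw [measure_iUnion hdis hAm, tsum_fintype, Finset.sum_congr rfl fun ε _ => hAv ε, Finset.sum_const,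
      Finset.card_univ, Fintype.card_fun, Fintype.card_bool, Fintype.card_fin, nsmul_eq_mul]
    push_cast
    rfl
  have h3 : volume Q = volume {x : Fin n → ℝ | x ⬝ᵥ x < 1 ∧ ∀ i, 0 ≤ x i} := by
    refine le_antisymm (measure_mono ?_) ?_
    · rintro x ⟨hx, hx'⟩
      exact ⟨hx, fun i => (hx' i).le⟩
    · have hsub : {x : Fin n → ℝ | x ⬝ᵥ x < 1 ∧ ∀ i, 0 ≤ x i} ⊆ Q ∪ N := by
        rintro x ⟨hx, hx'⟩
        by_cases h0 : ∃ i, x i = 0
        · right
          rw [hN]
          exact Set.mem_iUnion.2 h0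
        · left
          push Not at h0
          exact ⟨hx, fun i => lt_of_le_of_ne (hx' i) (h0 i).symm⟩
      refine (measure_mono hsub).trans ((measure_union_le _ _).trans ?_)
      rw [hN0, add_zero]
  rw [h1, h2, h3]

/-- measure of the orthant piece of the sphere -/
theorem sph_orthant (n : ℕ) :
    2 ^ n * (volume : Measure (EuclideanSpace ℝ (Fin n))).toSphere
      {x : sphere (0 : EuclideanSpace ℝ (Fin n)) 1 | ∀ i, 0 ≤ (x.1 : EuclideanSpace ℝ (Fin n)) i} =
    (volume : Measure (EuclideanSpace ℝ (Fin n))).toSphere univ := by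
  rw [cone_vol n {x : sphere (0 : EuclideanSpace ℝ (Fin n)) 1 | ∀ i, 0 ≤ (x.1 : EuclideanSpace ℝ (Fin n)) i}
      {x : Fin n → ℝ | ∀ i, 0 ≤ x i} ?_ (fun x => Iff.rfl) ?_,
    cone_vol n univ univ MeasurableSet.univ (fun x => by simp) (fun c x hc => by simp)]
  · have h := vol_orthant_pow n
    simp only [Set.mem_univ, and_true]
    rw [← h]
    simp only [Set.mem_ofPred_eq]
    ring
  · have : {x : Fin n → ℝ | ∀ i, 0 ≤ x i} = ⋂ i, {x | 0 ≤ x i} := by
      ext x
      simp
    rw [this]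
    exact MeasurableSet.iInter fun i => measurableSet_le measurable_const (measurable_pi_apply i)
  · intro c x hc
    simp only [Set.mem_ofPred_eq, Pi.smul_apply, smul_eq_mul, mul_nonneg_iff_of_pos_left hc]

/-- the points of the unit sphere at distance less than `r` from `x` -/
def cap {n : ℕ} (x : EuclideanSpace ℝ (Fin n)) (r : ℝ) : Set (EuclideanSpace ℝ (Fin n)) :=
  {z | ‖z‖ = 1 ∧ dist z x < r}

theorem image_ball {n : ℕ} (x : sphere (0 : EuclideanSpace ℝ (Fin n)) 1) (r : ℝ) :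
    ((↑) : sphere (0 : EuclideanSpace ℝ (Fin n)) 1 → EuclideanSpace ℝ (Fin n)) '' ball x r = cap x.1 r := by
  ext z
  constructor
  · rintro ⟨y, hy, rfl⟩
    exact ⟨mem_sphere_zero_iff_norm.1 y.2, hy⟩
  · rintro ⟨h1, h2⟩
    exact ⟨⟨z, mem_sphere_zero_iff_norm.2 h1⟩, h2, rfl⟩

theorem iso_cap {n : ℕ} (g : EuclideanSpace ℝ (Fin n) ≃ₗᵢ[ℝ] EuclideanSpace ℝ (Fin n))
    (x : EuclideanSpace ℝ (Fin n)) (r : ℝ) : g '' cap x r = cap (g x) r := by
  ext z
  constructor
  · rintro ⟨y, ⟨h1, h2⟩, rfl⟩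
    exact ⟨by rw [g.norm_map, h1], by rw [g.dist_map]; exact h2⟩
  · rintro ⟨h1, h2⟩
    refine ⟨g.symm z, ⟨by rw [g.symm.norm_map, h1], ?_⟩, by simp⟩
    rw [← g.dist_map]
    simpa using h2

theorem exists_iso {n : ℕ} (x y : sphere (0 : EuclideanSpace ℝ (Fin n)) 1) :
    ∃ g : EuclideanSpace ℝ (Fin n) ≃ₗᵢ[ℝ] EuclideanSpace ℝ (Fin n), g x.1 = y.1 := by
  refine ⟨Submodule.reflection (ℝ ∙ (x.1 - y.1))ᗮ, ?_⟩
  apply Submodule.reflection_sub
  rw [mem_sphere_zero_iff_norm.1 x.2, mem_sphere_zero_iff_norm.1 y.2]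

open scoped Pointwise in
theorem toSphere_ball {n : ℕ} (x y : sphere (0 : EuclideanSpace ℝ (Fin n)) 1) (r : ℝ) :
    (volume : Measure (EuclideanSpace ℝ (Fin n))).toSphere (ball x r) =
      (volume : Measure (EuclideanSpace ℝ (Fin n))).toSphere (ball y r) := by
  obtain ⟨g, hg⟩ := exists_iso y x
  rw [Measure.toSphere_apply' _ isOpen_ball.measurableSet, Measure.toSphere_apply' _ isOpen_ball.measurableSet,
    image_ball, image_ball]
  congr 1
  have h1 : Ioo (0 : ℝ) 1 • cap x.1 r = g.symm ⁻¹' (Ioo (0 : ℝ) 1 • cap y.1 r) := by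
    rw [← hg, ← iso_cap]
    ext z
    simp only [Set.mem_smul, Set.mem_preimage, Set.mem_image]
    constructor
    · rintro ⟨t, ht, _, ⟨w, hw, rfl⟩, rfl⟩
      exact ⟨t, ht, w, hw, by simp⟩
    · rintro ⟨t, ht, w, hw, h⟩
      refine ⟨t, ht, g w, ⟨w, hw, rfl⟩, ?_⟩
      rw [← map_smul, h]
      simp
  rw [h1]
  have h2 : MeasurePreserving g.symm.toMeasurableEquiv volume volume := g.symm.measurePreserving
  exact h2.measure_preimage_equiv _

/-- a rotation invariant finite measure is proportional to `toSphere` -/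
theorem invariant_eq {n : ℕ} (σ : Measure (EuclideanSpace ℝ (Fin n)))
    (hfin : σ (sphere 0 1) < ⊤)
    (hinv : ∀ (g : EuclideanSpace ℝ (Fin n) ≃ₗᵢ[ℝ] EuclideanSpace ℝ (Fin n)) (A : Set (EuclideanSpace ℝ (Fin n))),
      MeasurableSet A → A ⊆ sphere 0 1 → σ (g '' A) = σ A) :
    ∃ c : ENNReal, c ≠ ⊤ ∧ ∀ Q : Set (sphere (0 : EuclideanSpace ℝ (Fin n)) 1), MeasurableSet Q →
      σ ((↑) '' Q) = c * (volume : Measure (EuclideanSpace ℝ (Fin n))).toSphere Q := by
  by_cases h0 : σ (sphere 0 1) = 0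
  · refine ⟨0, by simp, fun Q _ => ?_⟩
    rw [zero_mul]
    refine measure_mono_null ?_ h0
    rintro _ ⟨x, -, rfl⟩
    exact x.2
  have hne : (sphere (0 : EuclideanSpace ℝ (Fin n)) 1).Nonempty := by
    by_contra h
    rw [Set.not_nonempty_iff_eq_empty] at h
    rw [h] at h0
    simp at h0
  obtain ⟨p0, hp0⟩ := hne
  set x0 : sphere (0 : EuclideanSpace ℝ (Fin n)) 1 := ⟨p0, hp0⟩ with hx0
  have hms : MeasurableSet (sphere (0 : EuclideanSpace ℝ (Fin n)) 1) := isClosed_sphere.measurableSet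
  set μ : Measure (sphere (0 : EuclideanSpace ℝ (Fin n)) 1) := σ.comap (↑) with hμdef
  have hμ : ∀ Q : Set (sphere (0 : EuclideanSpace ℝ (Fin n)) 1), μ Q = σ ((↑) '' Q) :=
    fun Q => comap_subtype_coe_apply hms σ Q
  have hμu : μ univ = σ (sphere 0 1) := by
    rw [hμ, image_univ, Subtype.range_coe]
  have : IsFiniteMeasure μ := ⟨by rw [hμu]; exact hfin⟩
  have hcapm : ∀ (x : EuclideanSpace ℝ (Fin n)) r, MeasurableSet (cap x r) := by
    intro x r
    have : cap x r = sphere 0 1 ∩ ball x r := by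
      ext z
      simp [cap]
    rw [this]
    exact hms.inter isOpen_ball.measurableSet
  have hballs : ∀ (x : sphere (0 : EuclideanSpace ℝ (Fin n)) 1) (r : ℝ), μ (ball x r) = μ (ball x0 r) := by
    intro x r
    obtain ⟨g, hg⟩ := exists_iso x0 x
    rw [hμ, hμ, image_ball, image_ball, ← hg, ← iso_cap, hinv g _ (hcapm _ _)]
    intro z hz
    exact mem_sphere_zero_iff_norm.2 hz.1
  have hpos : ∀ r > 0, μ (ball x0 r) ≠ 0 := by
    intro r hr hz
    obtain ⟨t, -, htf, hts⟩ := finite_cover_balls_of_compact (isCompact_univ (X := sphere (0 : EuclideanSpace ℝ (Fin n)) 1)) hr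
    have h1 : μ (⋃ x ∈ t, ball x r) = 0 := by
      rw [measure_biUnion_null_iff htf.countable]
      intro x _
      rw [hballs, hz]
    have h2 := measure_mono_null hts h1
    rw [hμu] at h2
    exact h0 h2
  have : Nontrivial (EuclideanSpace ℝ (Fin n)) := by
    refine ⟨p0, 0, ?_⟩
    rintro rfl
    simp at hp0
  obtain ⟨c, hc, hcμ⟩ := unif μ (volume : Measure (EuclideanSpace ℝ (Fin n))).toSphere x0 hballs
    (fun x r => toSphere_ball x x0 r) hpos
    (fun r hr => (isOpen_ball.measure_pos _ ⟨x0, mem_ball_self hr⟩).ne')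
  refine ⟨c, hc, fun Q _ => ?_⟩
  rw [← hμ, hcμ, Measure.smul_apply, smul_eq_mul]

end Pool.Agent.Lib.MP_3f0dd2_gt
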