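import Pool.Agent.Lib.MP_3f0dd2_gt.Main

/-!
# Volume product of spherical simplices, in terms of `toSphere`
-/

set_option autoImplicit false
open MeasureTheory Metric

namespace Pool.Agent.Lib.MP_3f0dd2_gt

open Matrix in
theorem cone_meas (n : ℕ) (M : Matrix (Fin n) (Fin n) ℝ) :
    MeasurableSet {x : Fin n → ℝ | ∀ i, 0 ≤ (M *ᵥ x) i} := by
  rw [show {x : Fin n → ℝ | ∀ i, 0 ≤ (M *ᵥ x) i} = ⋂ i, {x | 0 ≤ (M *ᵥ x) i} by ext; simp]
  refine MeasurableSet.iInter fun i => measurableSet_le measurable_const ?_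
  have : Continuous (fun y : Fin n → ℝ => M *ᵥ y) :=
    (Continuous.matrix_mulVec continuous_const continuous_id)
  exact ((continuous_apply i).comp this).measurable

open Matrix in
theorem cone_scale (n : ℕ) (M : Matrix (Fin n) (Fin n) ℝ) (c : ℝ) (x : Fin n → ℝ) (hc : 0 < c) :
    (c • x ∈ {x : Fin n → ℝ | ∀ i, 0 ≤ (M *ᵥ x) i} ↔ x ∈ {x : Fin n → ℝ | ∀ i, 0 ≤ (M *ᵥ x) i}) := by
  simp only [Set.mem_ofPred_eq, mulVec_smul, Pi.smul_apply, smul_eq_mul, mul_nonneg_iff_of_pos_left hc]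

open Matrix in
theorem two_vols (n : ℕ) (a : Fin n → EuclideanSpace ℝ (Fin n)) (M : Matrix (Fin n) (Fin n) ℝ)
    (hMa : ∀ i j, M i j = (a i).ofLp j) (hM : M.det ≠ 0) :
      (volume : Measure (EuclideanSpace ℝ (Fin n))).toSphere
          (setOf fun x : sphere (0 : EuclideanSpace ℝ (Fin n)) 1 =>
            ∀ i, 0 ≤ @inner ℝ (EuclideanSpace ℝ (Fin n)) _ x.1 (a i))
        = n * volume {x : Fin n → ℝ | x ⬝ᵥ x < 1 ∧ ∀ i, 0 ≤ (M *ᵥ x) i} ∧
        (volume : Measure (EuclideanSpace ℝ (Fin n))).toSphere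
          (setOf fun x : sphere (0 : EuclideanSpace ℝ (Fin n)) 1 =>
            ∀ y : sphere (0 : EuclideanSpace ℝ (Fin n)) 1,
              (∀ i, 0 ≤ @inner ℝ (EuclideanSpace ℝ (Fin n)) _ y.1 (a i)) →
                0 ≤ @inner ℝ (EuclideanSpace ℝ (Fin n)) _ x.1 y.1)
        = n * volume {x : Fin n → ℝ | x ⬝ᵥ x < 1 ∧ ∀ i, 0 ≤ ((Mᵀ)⁻¹ *ᵥ x) i} := by
  have hin : ∀ x y : EuclideanSpace ℝ (Fin n),
      @inner ℝ (EuclideanSpace ℝ (Fin n)) _ x y = x.ofLp ⬝ᵥ y.ofLp := by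
    intro x y
    rw [EuclideanSpace.inner_eq_star_dotProduct]
    simp [dotProduct_comm]
  have hMx : ∀ (x : EuclideanSpace ℝ (Fin n)) (i : Fin n),
      @inner ℝ (EuclideanSpace ℝ (Fin n)) _ x (a i) = (M *ᵥ x.ofLp) i := by
    intro x i
    rw [hin, dotProduct_comm]
    simp only [mulVec, dotProduct]
    apply Finset.sum_congr rfl
    intro j _
    rw [hMa]
  have hu : IsUnit M.det := isUnit_iff_ne_zero.2 hM
  have hinv1 : M⁻¹ * M = 1 := nonsing_inv_mul M hu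
  have hinv2 : M * M⁻¹ = 1 := mul_nonsing_inv M hu
  constructor
  · apply Pool.Agent.Lib.MP_3f0dd2_gt.cone_vol n _ {x : Fin n → ℝ | ∀ i, 0 ≤ (M *ᵥ x) i}
      (cone_meas n M) _ (fun c x hc => cone_scale n M c x hc)
    intro x
    simp only [Set.mem_ofPred_eq, hMx]
    exact Iff.rfl
  · apply Pool.Agent.Lib.MP_3f0dd2_gt.cone_vol n _ {x : Fin n → ℝ | ∀ i, 0 ≤ ((Mᵀ)⁻¹ *ᵥ x) i}
      (cone_meas n _) _ (fun c x hc => cone_scale n _ c x hc)
    intro x
    simp only [Set.mem_ofPred_eq, hMx, hin]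
    change (∀ y : sphere (0 : EuclideanSpace ℝ (Fin n)) 1, (∀ i, 0 ≤ (M *ᵥ y.1.ofLp) i) →
      0 ≤ x.1.ofLp ⬝ᵥ y.1.ofLp) ↔ ∀ i, 0 ≤ ((Mᵀ)⁻¹ *ᵥ x.1.ofLp) i
    constructor
    · intro h j
      set b : Fin n → ℝ := M⁻¹ *ᵥ (Pi.single j 1) with hb
      have hMb : M *ᵥ b = Pi.single j 1 := by
        rw [hb, mulVec_mulVec, hinv2, one_mulVec]
      have hb0 : b ≠ 0 := by
        intro h0
        rw [h0, mulVec_zero] at hMb
        have := congrFun hMb j
        simp at this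
      set B : EuclideanSpace ℝ (Fin n) := WithLp.toLp 2 b with hB
      have hB0 : B ≠ 0 := by
        intro h0
        apply hb0
        have := congrArg WithLp.ofLp h0
        simpa [hB] using this
      have hBn : 0 < ‖B‖ := norm_pos_iff.2 hB0
      have h1 := h ⟨‖B‖⁻¹ • B, by
        rw [mem_sphere_zero_iff_norm, norm_smul, norm_inv, norm_norm, inv_mul_cancel₀ hBn.ne']⟩ (by
        intro i
        simp only [WithLp.ofLp_smul, mulVec_smul, Pi.smul_apply, smul_eq_mul]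
        apply mul_nonneg (inv_pos.2 hBn).le
        simp only [hB]
        rw [hMb]
        by_cases hij : i = j
        · subst hij; simp
        · simp [hij])
      simp only [WithLp.ofLp_smul, dotProduct_smul, smul_eq_mul] at h1
      have h2 : 0 ≤ x.1.ofLp ⬝ᵥ b := by
        have := (mul_nonneg_iff_of_pos_left (inv_pos.2 hBn)).1 h1
        simpa [hB] using this
      have h3 : (Mᵀ⁻¹ *ᵥ x.1.ofLp) j = x.1.ofLp ⬝ᵥ b := by
        rw [hb, dotProduct_mulVec, ← mulVec_transpose, transpose_nonsing_inv]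
        simp
      rw [h3]; exact h2
    · intro h y hy
      have h1 : x.1.ofLp ⬝ᵥ y.1.ofLp = (Mᵀ⁻¹ *ᵥ x.1.ofLp) ⬝ᵥ (M *ᵥ y.1.ofLp) := by
        rw [← transpose_nonsing_inv, mulVec_transpose, ← dotProduct_mulVec, mulVec_mulVec, hinv1, one_mulVec]
      rw [h1]
      exact Finset.sum_nonneg fun i _ => mul_nonneg (h i) (hy i)

theorem sph_main :
    ∀ (n : ℕ) (a : Fin n → EuclideanSpace ℝ (Fin n)), LinearIndependent ℝ a →
      (volume : Measure (EuclideanSpace ℝ (Fin n))).toSphere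
          (setOf fun x : sphere (0 : EuclideanSpace ℝ (Fin n)) 1 =>
            ∀ i, 0 ≤ @inner ℝ (EuclideanSpace ℝ (Fin n)) _ x.1 (a i)) *
        (volume : Measure (EuclideanSpace ℝ (Fin n))).toSphere
          (setOf fun x : sphere (0 : EuclideanSpace ℝ (Fin n)) 1 =>
            ∀ y : sphere (0 : EuclideanSpace ℝ (Fin n)) 1,
              (∀ i, 0 ≤ @inner ℝ (EuclideanSpace ℝ (Fin n)) _ y.1 (a i)) →
                0 ≤ @inner ℝ (EuclideanSpace ℝ (Fin n)) _ x.1 y.1)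
      ≤
      (volume : Measure (EuclideanSpace ℝ (Fin n))).toSphere
          (setOf fun x : sphere (0 : EuclideanSpace ℝ (Fin n)) 1 =>
            ∀ i, 0 ≤ @inner ℝ (EuclideanSpace ℝ (Fin n)) _ x.1
              (EuclideanSpace.single i (1 : ℝ))) *
        (volume : Measure (EuclideanSpace ℝ (Fin n))).toSphere
          (setOf fun x : sphere (0 : EuclideanSpace ℝ (Fin n)) 1 =>
            ∀ y : sphere (0 : EuclideanSpace ℝ (Fin n)) 1,
              (∀ i, 0 ≤ @inner ℝ (EuclideanSpace ℝ (Fin n)) _ y.1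
                (EuclideanSpace.single i (1 : ℝ))) →
                0 ≤ @inner ℝ (EuclideanSpace ℝ (Fin n)) _ x.1 y.1) := by
  intro n a ha
  set M : Matrix (Fin n) (Fin n) ℝ := Matrix.of fun i j => (a i).ofLp j with hMdef
  have hM : M.det ≠ 0 := by
    have h1 : LinearIndependent ℝ M.row := by
      have h2 := ha.map' (WithLp.linearEquiv 2 ℝ (Fin n → ℝ)).toLinearMap (LinearEquiv.ker _)
      exact h2
    have := Matrix.linearIndependent_rows_iff_isUnit.1 h1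
    exact ((Matrix.isUnit_iff_isUnit_det M).1 this).ne_zero
  obtain ⟨e1, e2⟩ := two_vols n a M (fun i j => rfl) hM
  obtain ⟨e3, e4⟩ := two_vols n (fun i => EuclideanSpace.single i (1 : ℝ)) (1 : Matrix (Fin n) (Fin n) ℝ)
    (fun i j => by
      simp [Matrix.one_apply, eq_comm]) (by simp)
  rw [e1, e2, e3, e4]
  simp only [Matrix.transpose_one, inv_one, Matrix.one_mulVec]
  have h := Pool.Agent.Lib.MP_3f0dd2_gt.main_pi n M hM
  calc _ = (n * n : ENNReal) * (volume {x : Fin n → ℝ | x ⬝ᵥ x < 1 ∧ ∀ i, 0 ≤ (M.mulVec x) i} *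
      volume {x : Fin n → ℝ | x ⬝ᵥ x < 1 ∧ ∀ i, 0 ≤ (((M.transpose)⁻¹).mulVec x) i}) := by ring
    _ ≤ (n * n : ENNReal) * (volume {x : Fin n → ℝ | x ⬝ᵥ x < 1 ∧ ∀ i, 0 ≤ x i}) ^ 2 :=
      mul_le_mul' le_rfl h
    _ = _ := by ring

end Pool.Agent.Lib.MP_3f0dd2_gt
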